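import Mathlib
import Pool.Agent.R594.Img.Lim

set_option autoImplicit false

/-!
# MP_e848aa_gt, Q1: perfect images of countably metacompact metalindelöf spaces

Let `X` be metalindelöf and countably metacompact and let `f : X → Y` be a closed map such that, for
every `y`, the part of the fibre of `y` outside its interior is compact (for example a perfect map).
Then every open cover of `Y` with a subcover whose cardinality is smaller than every uncountable
regular limit cardinal has a point-countable open refinement. No separation axioms are used.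
-/

universe u v

namespace Pool.Agent.Results.MP_e848aa_gt.CountMetacompact

open Set R594.Img

theorem result {X : Type u} {Y : Type v} [TopologicalSpace X] [TopologicalSpace Y]
    (hX : Metalindelof X) (hcm : CountablyMetacompact X) {f : X → Y} (hc : Continuous f)
    (hcl : IsClosedMap f) (hs : Function.Surjective f)
    (hK : ∀ y, IsCompact (f ⁻¹' {y} \ interior (f ⁻¹' {y})))
    (𝒰 : Set (Set Y)) (ho : ∀ U ∈ 𝒰, IsOpen U)
    (hsub : ∃ 𝒰₀ ⊆ 𝒰, ⋃₀ 𝒰₀ = univ ∧ ∀ μ ≤ Cardinal.mk 𝒰₀, ¬ WeaklyInaccessible μ) :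
    ∃ 𝒱 : Set (Set Y), (∀ V ∈ 𝒱, IsOpen V) ∧ ⋃₀ 𝒱 = univ ∧
      (∀ V ∈ 𝒱, ∃ U ∈ 𝒰, V ⊆ U) ∧ ∀ y, {V | V ∈ 𝒱 ∧ y ∈ V}.Countable := by
  obtain ⟨𝒰₀, h1, h2, h3⟩ := hsub
  obtain ⟨𝒱, k1, k2, k3, k4⟩ := (perfect_cmc hc hcl hs hK hX hcm _ h3 𝒰₀ rfl).sets
    (fun U hU => ho U (h1 hU)) h2
  refine ⟨𝒱, k1, k2, fun V hV => ?_, k4⟩
  obtain ⟨U, hU, hVU⟩ := k3 V hV
  exact ⟨U, h1 hU, hVU⟩

end Pool.Agent.Results.MP_e848aa_gt.CountMetacompact
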