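import Mathlib
import Pool.Agent.R594.Img.Fin

set_option autoImplicit false

/-!
# MP_e848aa_gt: closed images of metalindelöf spaces when the fibres have finite boundaries

Let `X` be metalindelöf and let `f : X → Y` be a closed map such that, for every `y`, the part of the
fibre of `y` outside its interior is finite (for example a closed map with finite fibres). Then `Y`
is metalindelöf. No separation axioms are used.
-/

universe u v

namespace Pool.Agent.Results.MP_e848aa_gt.FiniteBoundary

open Set R594.Img

theorem result {X : Type u} {Y : Type v} [TopologicalSpace X] [TopologicalSpace Y]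
    (hX : Metalindelof X) {f : X → Y} (hc : Continuous f) (hcl : IsClosedMap f)
    (hs : Function.Surjective f)
    (hfin : ∀ y, (f ⁻¹' {y} \ interior (f ⁻¹' {y})).Finite) : Metalindelof Y :=
  fun 𝒰 ho hcov => (finite_fibres hc hcl hs hfin (fun κ => hX.refPC κ) 𝒰).sets ho hcov

end Pool.Agent.Results.MP_e848aa_gt.FiniteBoundary
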